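import Pool.Agent.H26R3.SlsDefs
import Pool.Agent.H26R3.SlsRigid

set_option autoImplicit false
open UpperHalfPlane

namespace Pool.Agent.Results.MP_052aee_gt.InfTypeIsospectral

open Pool.Agent.H26R3

/-- Two homeomorphic Nielsen-convex complete hyperbolic surfaces with nonabelian fundamental group
which have the same simple length spectrum but are not isometric. -/
theorem result : ∃ Γ Γ' : Subgroup (ℍ ≃ᵢ ℍ),
    IsSurfaceGroup Γ ∧ IsSurfaceGroup Γ' ∧
    (∃ γ ∈ Γ, ∃ δ ∈ Γ, γ * δ ≠ δ * γ) ∧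
    Nonempty (Surf Γ ≃ₜ Surf Γ') ∧
    NielsenConvex Γ ∧ NielsenConvex Γ' ∧
    SameSimpleLengthSpectrum Γ Γ' ∧
    ¬ IsometricSurfaces Γ Γ' := by
  obtain ⟨ω, hω⟩ := exists_nonisometric (VV' (fun _ => true))
  exact ⟨(VV' (fun _ => true)).Gam, (VV' ω).Gam, Verts.isSurfaceGroup _, Verts.isSurfaceGroup _,
    Verts.noncomm _, ⟨Verts.homeo _ _⟩, Verts.nielsenConvex _, Verts.nielsenConvex _,
    Verts.sameSpectrum (fun M B => pattern _ ω M B) (fun M B => pattern _ (fun _ => true) M B), hω⟩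

end Pool.Agent.Results.MP_052aee_gt.InfTypeIsospectral
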